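import Pool.Agent.CRD.Br.Final

/-!
# CRD: the final statement, for semiorthogonal decompositions with or without the requirement that
the components are admissible
-/

open CategoryTheory AlgebraicGeometry Limits Opposite Pretriangulated

namespace Pool.CRD

noncomputable section

/-- a full subcategory whose inclusion has a left and a right adjoint -/
def Adm {T : Type*} [Category* T] (B : ObjectProperty T) : Prop :=
  B.ι.IsLeftAdjoint ∧ B.ι.IsRightAdjoint

variable {K : Type} [Field K]

/-- `X` is categorically representable in dimension `n`: there is a semiorthogonal decomposition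
of `D^b(X)` every component of which is equivalent to an admissible subcategory of `D^b(Y)` for
some smooth projective variety `Y` of dimension `≤ n`. If `adm` holds, it is also required that the
components are admissible subcategories of `D^b(X)`. -/
def CatRepW (adm : Prop) (X : KSch K) (n : ℕ) : Prop :=
  ∃ (l : ℕ) (B : Fin l → ObjectProperty X.Db), SOD B ∧ (adm → ∀ j, Adm (B j)) ∧
    ∀ j, ∃ (_ : (B j).IsTriangulated) (Y : KSch K),
      AlgebraicGeometry.Smooth Y.f ∧ IsProjectiveOver Y.f ∧ AlgebraicGeometry.IsIntegral Y.X ∧
      topologicalKrullDim Y.X ≤ n ∧ EquivAdm K Y.Db (B j)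

/-- the categorical representability dimension: the least `n` such that `X` is categorically
representable in dimension `n` -/
def crdW (adm : Prop) (X : KSch K) : ℕ∞ := ⨅ (n : ℕ) (_ : CatRepW adm X n), (n : ℕ∞)

/-- The final statement: there is a smooth projective morphism `π : E → Spec R` with geometrically
integral fibres such that the set of points `s` with `crd (E_s) ≤ 2` is not open, for both
conventions on the components of semiorthogonal decompositions. -/
def Stmt_CRD2 : Prop :=
  ∃ (R : Type) (_ : CommRing R) (E : Scheme.{0}) (π : E ⟶ Spec (CommRingCat.of R))
    (_ : AlgebraicGeometry.Smooth π), IsProjectiveOver π ∧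
    (∀ s, AlgebraicGeometry.IsIntegral (geomFibre π s).X) ∧
    ∀ adm : Prop, ¬ IsOpen {s : Spec (CommRingCat.of R) | crdW adm (geomFibre π s) ≤ 2}

end

end Pool.CRD
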