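import Pool.Agent.CRD.Br.Fin
import Pool.Agent.CRD.Sa.Final

/-!
# CRD: the final statement, in bundled form, with both conventions on the components
-/

open CategoryTheory AlgebraicGeometry Limits Opposite Pretriangulated Polynomial

namespace Pool.CRD

noncomputable section

/-- `T` has a semiorthogonal decomposition (with finitely many components) in which every
component is equivalent to an admissible subcategory of some `F i` with `Q i`. If `adm` holds, it
is also required that the components are admissible subcategories of `T`. -/
def RepInW (adm : Prop) {K : Type} [Field K] (T : TriCat K) {ι : Type 1} (F : ι → TriCat K)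
    (Q : ι → Prop) : Prop :=
  ∃ (l : ℕ) (B : Fin l → ObjectProperty T.T), SOD B ∧ (adm → ∀ j, Adm (B j)) ∧
    ∀ j, ∃ (_ : (B j).IsTriangulated) (i : ι), Q i ∧ EquivAdm K (F i).T (B j)

/-- the categorical representability dimension of `X`: the least `n` such that `D^b(X)` has a
semiorthogonal decomposition (with admissible components, if `adm` holds) in which every component
is equivalent to an admissible subcategory of `D^b(Y)` for some smooth projective variety `Y` of
dimension `≤ n` -/
def crdimW (adm : Prop) {K : Type} [Field K] (X : KSch K) : ℕ∞ :=
  ⨅ (n : ℕ) (_ : RepInW adm X.db KSch.db (KSch.SmProjDim n)), (n : ℕ∞)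

lemma repInW_iff (adm : Prop) {K : Type} [Field K] (X : KSch K) (n : ℕ) :
    RepInW adm X.db KSch.db (KSch.SmProjDim n) ↔ CatRepW adm X n := by
  unfold CatRepW RepInW KSch.SmProjDim
  refine exists_congr fun l => exists_congr fun B => and_congr Iff.rfl (and_congr Iff.rfl
    (forall_congr' fun j => ?_))
  refine exists_congr fun _ => exists_congr fun Y => ?_
  simp only [and_assoc]
  exact Iff.rfl

lemma crdimW_eq (adm : Prop) {K : Type} [Field K] (X : KSch K) :
    crdimW adm X = crdW adm X := by
  unfold crdimW crdW
  simp only [repInW_iff]

end

end Pool.CRD
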