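import Pool.Agent.CRD.Sa.Stmts
import Pool.Agent.CRD.Sa.Fin
import Pool.Agent.CRD.F2.F2K

/-!
# CRD: assembly of the final statement over the curve `A^1 ∖ {0, 1}`
-/

open CategoryTheory AlgebraicGeometry Limits Opposite Pretriangulated Polynomial

namespace Pool.CRD

/-- the final statement -/
def Stmt_CRD3 : Prop :=
  ∀ (k : Type) [Field k] [CharZero k], ∃ (E : Scheme.{0})
    (π : E ⟶ Spec (CommRingCat.of (Localization.Away (X * (X - 1) : k[X]))))
    (_ : AlgebraicGeometry.Smooth π), IsProjectiveOver π ∧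
    (∀ s, AlgebraicGeometry.IsIntegral (geomFibre π s).X) ∧
    ∀ adm : Prop, ¬ IsOpen {s : Spec (CommRingCat.of (Localization.Away (X * (X - 1) : k[X]))) |
      crdimW adm (geomFibre π s) ≤ 2}

theorem crd3_proof (hT1 : Stmt_T1A) (hT2 : Stmt_T2A) (hIY : Stmt_IYT) (hIX : Stmt_IXT)
    (hSP : Stmt_SPS) (hTSA : Stmt_TSA) (hG : Stmt_GOO) (hC : Stmt_COH) (hT : TransAll)
    (hFa : Stmt_F2a) (hFb : Stmt_F2K) : Stmt_CRD3 := by
  intro k _ _
  obtain ⟨E, π, hs, hp, hi, h0, s, η, hsη, hg, hsp⟩ := hFb k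
  refine ⟨E, π, hs, hp, hi, fun adm ho => ?_⟩
  haveI := h0 s
  haveI := h0 η
  simp only [crdimW_eq] at ho
  have h1 : s ∈ {s : Spec (CommRingCat.of (RK k)) | crdW adm (geomFibre π s) ≤ 2} :=
    (crdW_le_iff adm _ 2).2 (spec_okA hSP hTSA hG hC hT _ hsp adm)
  have h2 : η ∈ {s : Spec (CommRingCat.of (RK k)) | crdW adm (geomFibre π s) ≤ 2} :=
    hsη.mem_open ho h1
  exact gen_not hT1 hT2 hIY hIX hG hC hT hFa _ hg ((crdW_le_iff adm _ 2).1 h2).weak

end Pool.CRD
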