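import Pool.Agent.CRD.Sa.Stmts

/-!
# CRD, area SA, LPJ: the objects for which the left adjoint is defined are closed under shifts and
extensions
-/

open CategoryTheory Opposite Limits Pretriangulated

namespace Pool.CRD

namespace LPJ_

/-- universal arrows `Y ⟶ F R` -/
def Univ {T : Type 1} [Category.{1} T] {T' : Type 1} [Category.{1} T'] (F : T ⥤ T')
    {R : T} {Y : T'} (e : Y ⟶ F.obj R) : Prop :=
  ∀ N : T, Function.Bijective (fun f : R ⟶ N => e ≫ F.map f)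

section
variable {T : Type 1} [Category.{1} T] {T' : Type 1} [Category.{1} T'] (F : T ⥤ T')

lemma defined_of_univ {R : T} {Y : T'} (e : Y ⟶ F.obj R) (h : Univ F e) :
    F.leftAdjointObjIsDefined Y := by
  let r : (F ⋙ coyoneda.obj (op Y)).CorepresentableBy R :=
    { homEquiv := fun {N} => Equiv.ofBijective _ (h N)
      homEquiv_comp := fun {N N'} g f => by
        change e ≫ F.map (f ≫ g) = (e ≫ F.map f) ≫ F.map g
        rw [F.map_comp, Category.assoc] }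
  exact r.isCorepresentable

lemma univ_of_defined {Y : T'} (h : F.leftAdjointObjIsDefined Y) :
    ∃ (R : T) (e : Y ⟶ F.obj R), Univ F e := by
  have hr : (F ⋙ coyoneda.obj (op Y)).IsCorepresentable := h
  obtain ⟨R, ⟨r⟩⟩ := hr.has_corepresentation
  refine ⟨R, r.homEquiv (𝟙 R), fun N => ?_⟩
  have h1 : (fun f : R ⟶ N => (r.homEquiv (𝟙 R) : Y ⟶ F.obj R) ≫ F.map f) =
      fun f => r.homEquiv f := by
    funext f
    rw [r.homEquiv_eq f]
    rfl
  rw [h1]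
  exact r.homEquiv.bijective

lemma univ_iso {R : T} {Y Y' : T'} (e : Y ⟶ F.obj R) (h : Univ F e) (i : Y' ≅ Y) :
    Univ F (i.hom ≫ e) := by
  intro N
  constructor
  · intro f g hfg
    apply (h N).1
    have h1 : i.hom ≫ (e ≫ F.map f) = i.hom ≫ (e ≫ F.map g) := by
      simpa only [Category.assoc] using hfg
    exact (cancel_epi i.hom).1 h1
  · intro k
    obtain ⟨f, hf⟩ := (h N).2 (i.inv ≫ k)
    refine ⟨f, ?_⟩
    change e ≫ F.map f = i.inv ≫ k at hf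
    change (i.hom ≫ e) ≫ F.map f = k
    rw [Category.assoc, hf, ← Category.assoc, i.hom_inv_id, Category.id_comp]

/-- bijectivity for all `N` follows from bijectivity for all objects isomorphic to `N` -/
lemma bij_of_iso {R : T} {Y : T'} (e : Y ⟶ F.obj R) {N N' : T} (i : N ≅ N')
    (h : Function.Bijective (fun f : R ⟶ N => e ≫ F.map f)) :
    Function.Bijective (fun f : R ⟶ N' => e ≫ F.map f) := by
  constructor
  · intro f g hfg
    have h1 : e ≫ F.map (f ≫ i.inv) = e ≫ F.map (g ≫ i.inv) := by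
      rw [F.map_comp, F.map_comp, ← Category.assoc, ← Category.assoc]
      exact congrArg (fun t => t ≫ F.map i.inv) hfg
    exact (cancel_mono i.inv).1 (h.1 h1)
  · intro k
    obtain ⟨f, hf⟩ := h.2 (k ≫ F.map i.inv)
    refine ⟨f ≫ i.hom, ?_⟩
    change e ≫ F.map f = k ≫ F.map i.inv at hf
    change e ≫ F.map (f ≫ i.hom) = k
    rw [F.map_comp, ← Category.assoc, hf, Category.assoc, ← F.map_comp, i.inv_hom_id, F.map_id,
      Category.comp_id]

end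

section
variable {T : Type 1} [Category.{1} T] [HasShift T ℤ] {T' : Type 1} [Category.{1} T']
  [HasShift T' ℤ] (F : T ⥤ T') [F.CommShift ℤ]

lemma shift_nat {R N : T} (n : ℤ) (g : R ⟶ N) :
    (F.commShiftIso n).inv.app R ≫ F.map (g⟦n⟧') =
      (F.map g)⟦n⟧' ≫ (F.commShiftIso n).inv.app N :=
  ((F.commShiftIso n).inv.naturality g).symm

lemma univ_shift {R : T} {Y : T'} (e : Y ⟶ F.obj R) (h : Univ F e) (n : ℤ) :
    Univ F (e⟦n⟧' ≫ (F.commShiftIso n).inv.app R) := by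
  have e1 : ∀ {N : T} (k : R ⟶ N), (e⟦n⟧' ≫ (F.commShiftIso n).inv.app R) ≫ F.map (k⟦n⟧') =
      (e ≫ F.map k)⟦n⟧' ≫ (F.commShiftIso n).inv.app N := by
    intro N k
    rw [Category.assoc, shift_nat, ← Category.assoc, ← Functor.map_comp]
  have key : ∀ N : T, Function.Bijective
      (fun f : R⟦n⟧ ⟶ N⟦n⟧ => (e⟦n⟧' ≫ (F.commShiftIso n).inv.app R) ≫ F.map f) := by
    intro N
    constructor
    · intro f g hfg
      obtain ⟨f', rfl⟩ := (shiftFunctor T n).map_surjective f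
      obtain ⟨g', rfl⟩ := (shiftFunctor T n).map_surjective g
      have h1 := hfg
      change (e⟦n⟧' ≫ _) ≫ F.map (f'⟦n⟧') = (e⟦n⟧' ≫ _) ≫ F.map (g'⟦n⟧') at h1
      rw [e1, e1] at h1
      have h2 := (cancel_mono ((F.commShiftIso n).inv.app N)).1 h1
      have h3 := (shiftFunctor T' n).map_injective h2
      rw [(h N).1 h3]
    · intro k
      obtain ⟨k', hk'⟩ := (shiftFunctor T' n).map_surjective (k ≫ (F.commShiftIso n).hom.app N)
      obtain ⟨f, hf⟩ := (h N).2 k'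
      refine ⟨f⟦n⟧', ?_⟩
      change (e⟦n⟧' ≫ _) ≫ F.map (f⟦n⟧') = k
      change e ≫ F.map f = k' at hf
      change k'⟦n⟧' = _ at hk'
      rw [e1, hf, hk', Category.assoc, ← NatTrans.comp_app, Iso.hom_inv_id, NatTrans.id_app]
      exact Category.comp_id k
  intro N
  exact bij_of_iso F _ (((shiftEquiv T n).symm).unitIso.symm.app N) (key (N⟦-n⟧))

end

section
variable {T : Type 1} [Category.{1} T] [HasZeroObject T] [HasShift T ℤ] [Preadditive T]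
    [∀ (n : ℤ), (shiftFunctor T n).Additive] [Pretriangulated T]
    {T' : Type 1} [Category.{1} T'] [HasZeroObject T'] [HasShift T' ℤ] [Preadditive T']
    [∀ (n : ℤ), (shiftFunctor T' n).Additive] [Pretriangulated T']
    (F : T ⥤ T') [F.CommShift ℤ] [F.IsTriangulated]

lemma map_zero' (N R : T) : F.map (0 : N ⟶ R) = 0 := F.map_zero N R

lemma univ_zero {R : T} {Y : T'} (e : Y ⟶ F.obj R) (h : Univ F e) {N : T} (f : R ⟶ N)
    (hf : e ≫ F.map f = 0) : f = 0 := by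
  apply (h N).1
  change e ≫ F.map f = e ≫ F.map 0
  rw [hf, map_zero', comp_zero]

lemma univ_ext (Δ : Triangle T') (hΔ : Δ ∈ distTriang T') {R₁ R₃ : T}
    (e₁ : Δ.obj₁ ⟶ F.obj R₁) (h₁ : Univ F e₁) (e₃ : Δ.obj₃ ⟶ F.obj R₃) (h₃ : Univ F e₃) :
    ∃ (R₂ : T) (e₂ : Δ.obj₂ ⟶ F.obj R₂), Univ F e₂ := by
  have h₁' := univ_shift F e₁ h₁ (1 : ℤ)
  obtain ⟨u, hu⟩ := (h₃ (R₁⟦(1 : ℤ)⟧)).2 (Δ.mor₃ ≫ e₁⟦(1 : ℤ)⟧' ≫
    (F.commShiftIso (1 : ℤ)).inv.app R₁)
  change e₃ ≫ F.map u = Δ.mor₃ ≫ e₁⟦(1 : ℤ)⟧' ≫ (F.commShiftIso (1 : ℤ)).inv.app R₁ at hu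
  obtain ⟨R₂, i, p, hR⟩ := distinguished_cocone_triangle₂ u
  have hFR := F.map_distinguished _ hR
  have hex : ∃ e₂ : Δ.obj₂ ⟶ F.obj R₂, Δ.mor₁ ≫ e₂ = e₁ ≫ F.map i ∧
      Δ.mor₂ ≫ e₃ = e₂ ≫ F.map p := by
    obtain ⟨e₂, he, he'⟩ := complete_distinguished_triangle_morphism₂ Δ _ hΔ hFR e₁ e₃ (by
      change Δ.mor₃ ≫ e₁⟦(1 : ℤ)⟧' = e₃ ≫ F.map u ≫ (F.commShiftIso (1 : ℤ)).hom.app R₁
      rw [← Category.assoc, hu, Category.assoc, Category.assoc, ← NatTrans.comp_app,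
        Iso.inv_hom_id, NatTrans.id_app]
      rw [show (𝟙 ((F ⋙ shiftFunctor T' (1 : ℤ)).obj R₁)) = 𝟙 ((F.obj R₁)⟦(1 : ℤ)⟧) from rfl,
        Category.comp_id])
    exact ⟨e₂, he, he'⟩
  obtain ⟨e₂, he, he'⟩ := hex
  have hpu : p ≫ u = 0 := comp_distTriang_mor_zero₂₃ _ hR
  refine ⟨R₂, e₂, fun N => ⟨?_, ?_⟩⟩
  · intro f f' hff
    change e₂ ≫ F.map f = e₂ ≫ F.map f' at hff
    rw [← sub_eq_zero]
    have hf : e₂ ≫ F.map (f - f') = 0 := by
      rw [F.map_sub, Preadditive.comp_sub, hff, sub_self]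
    generalize f - f' = f at hf
    have hif : i ≫ f = 0 := by
      apply univ_zero F e₁ h₁
      rw [F.map_comp, ← Category.assoc, ← he, Category.assoc, hf, comp_zero]
    have hg0 : ∃ g : R₃ ⟶ N, f = p ≫ g := Triangle.yoneda_exact₂ _ hR f hif
    obtain ⟨g, hg⟩ := hg0
    have hga : Δ.mor₂ ≫ (e₃ ≫ F.map g) = 0 := by
      rw [← Category.assoc, he', Category.assoc, ← F.map_comp, ← hg, hf]
    obtain ⟨k, hk⟩ := Triangle.yoneda_exact₃ _ hΔ _ hga
    obtain ⟨k', hk'⟩ := (h₁' N).2 k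
    change (e₁⟦(1 : ℤ)⟧' ≫ (F.commShiftIso (1 : ℤ)).inv.app R₁) ≫ F.map k' = k at hk'
    have hku : u ≫ k' = g := by
      apply (h₃ N).1
      change e₃ ≫ F.map (u ≫ k') = e₃ ≫ F.map g
      rw [F.map_comp, ← Category.assoc, hu, hk, ← hk']
      simp only [Category.assoc]
    rw [hg, ← hku, ← Category.assoc, hpu, zero_comp]
  · intro h
    obtain ⟨q, hq⟩ := (h₁ N).2 (Δ.mor₁ ≫ h)
    change e₁ ≫ F.map q = Δ.mor₁ ≫ h at hq
    have hqu : u ≫ q⟦(1 : ℤ)⟧' = 0 := by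
      apply univ_zero F e₃ h₃
      rw [F.map_comp, ← Category.assoc, hu, Category.assoc, Category.assoc, shift_nat,
        ← Category.assoc (e₁⟦(1 : ℤ)⟧'), ← Functor.map_comp, hq, Functor.map_comp,
        ← Category.assoc, ← Category.assoc, comp_distTriang_mor_zero₃₁ _ hΔ, zero_comp, zero_comp]
    have hq0 : ∃ q' : R₂ ⟶ N, q = i ≫ q' := by
      obtain ⟨k, hk⟩ : ∃ k : R₂⟦(1 : ℤ)⟧ ⟶ N⟦(1 : ℤ)⟧, q⟦(1 : ℤ)⟧' = (-i⟦(1 : ℤ)⟧') ≫ k :=
        Triangle.yoneda_exact₃ _ (rot_of_distTriang _ hR) (q⟦(1 : ℤ)⟧') hqu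
      obtain ⟨k', rfl⟩ := (shiftFunctor T (1 : ℤ)).map_surjective k
      refine ⟨-k', ?_⟩
      apply (shiftFunctor T (1 : ℤ)).map_injective
      rw [hk, Functor.map_comp, Functor.map_neg, Preadditive.neg_comp, Preadditive.comp_neg]
    obtain ⟨q', hq'⟩ := hq0
    obtain ⟨l, hl⟩ := Triangle.yoneda_exact₂ _ hΔ (e₂ ≫ F.map q' - h) (by
      rw [Preadditive.comp_sub, ← Category.assoc, he, Category.assoc, ← F.map_comp, ← hq',
        hq, sub_self])
    obtain ⟨m, hm⟩ := (h₃ N).2 l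
    change e₃ ≫ F.map m = l at hm
    refine ⟨q' - p ≫ m, ?_⟩
    change e₂ ≫ F.map (q' - p ≫ m) = h
    rw [F.map_sub, Preadditive.comp_sub, F.map_comp, ← Category.assoc e₂, ← he', Category.assoc,
      hm, ← hl, sub_sub_cancel]

end

end LPJ_

/-- module LPJ -/
theorem lpj_proof : Stmt_LPJ := by
  intro T _ _ _ _ _ _ T' _ _ _ _ _ _ F _ _
  refine ⟨⟨?_⟩, ?_, ?_⟩
  · intro X Y i hX
    obtain ⟨R, e, he⟩ := LPJ_.univ_of_defined F hX
    exact LPJ_.defined_of_univ F _ (LPJ_.univ_iso F e he i.symm)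
  · intro X n hX
    obtain ⟨R, e, he⟩ := LPJ_.univ_of_defined F hX
    exact LPJ_.defined_of_univ F _ (LPJ_.univ_shift F e he n)
  · intro Δ hΔ h1 h3
    obtain ⟨R₁, e₁, he₁⟩ := LPJ_.univ_of_defined F h1
    obtain ⟨R₃, e₃, he₃⟩ := LPJ_.univ_of_defined F h3
    obtain ⟨R₂, e₂, he₂⟩ := LPJ_.univ_ext F Δ hΔ e₁ he₁ e₃ he₃
    exact LPJ_.defined_of_univ F _ he₂

end Pool.CRD
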