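import Pool.Agent.CRD.Sa.Stmts

/-!
# CRD, area SA, module SO1: adjoints of the inclusions of the components
-/

open CategoryTheory AlgebraicGeometry Limits Opposite Pretriangulated

namespace Pool.CRD

namespace SO1_

section

variable {T : Type 1} [Category.{1} T] [HasZeroObject T] [HasShift T ℤ] [Preadditive T]
  [∀ (n : ℤ), (shiftFunctor T n).Additive] [Pretriangulated T]

omit [HasZeroObject T] [HasShift T ℤ] [Preadditive T]
  [∀ (n : ℤ), (shiftFunctor T n).Additive] [Pretriangulated T] in
theorem right_self (B : ObjectProperty T) (X : T) (h : B X) :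
    B.ι.rightAdjointObjIsDefined X := by
  rw [Functor.rightAdjointObjIsDefined_iff]
  exact Functor.RepresentableBy.isRepresentable (Y := (⟨X, h⟩ : B.FullSubcategory))
    { homEquiv := fun {Z} =>
        { toFun := fun f => f.hom
          invFun := fun f => ObjectProperty.homMk f
          left_inv := fun f => rfl
          right_inv := fun f => rfl }
      homEquiv_comp := fun f g => rfl }

omit [HasZeroObject T] [HasShift T ℤ] [Preadditive T]
  [∀ (n : ℤ), (shiftFunctor T n).Additive] [Pretriangulated T] in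
theorem left_self (B : ObjectProperty T) (X : T) (h : B X) :
    B.ι.leftAdjointObjIsDefined X := by
  rw [Functor.leftAdjointObjIsDefined_iff]
  exact Functor.CorepresentableBy.isCorepresentable (X := (⟨X, h⟩ : B.FullSubcategory))
    { homEquiv := fun {Z} =>
        { toFun := fun f => f.hom
          invFun := fun f => ObjectProperty.homMk f
          left_inv := fun f => rfl
          right_inv := fun f => rfl }
      homEquiv_comp := fun f g => rfl }

omit [HasZeroObject T] [HasShift T ℤ]
  [∀ (n : ℤ), (shiftFunctor T n).Additive] [Pretriangulated T] in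
theorem right_zero (B : ObjectProperty T) (Z : T) (hZ : IsZero Z) (hBZ : B Z) (X : T)
    (h : ∀ Y, B Y → ∀ f : Y ⟶ X, f = 0) : B.ι.rightAdjointObjIsDefined X := by
  rw [Functor.rightAdjointObjIsDefined_iff]
  exact Functor.RepresentableBy.isRepresentable (Y := (⟨Z, hBZ⟩ : B.FullSubcategory))
    { homEquiv := fun {Y} =>
        { toFun := fun _ => (0 : Y.obj ⟶ X)
          invFun := fun _ => ObjectProperty.homMk (0 : Y.obj ⟶ Z)
          left_inv := fun f => ObjectProperty.hom_ext _ (hZ.eq_of_tgt _ _)
          right_inv := fun f => (h Y.obj Y.property f).symm }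
      homEquiv_comp := fun {Y Y'} f g => (h Y.obj Y.property _).symm }

omit [HasZeroObject T] [HasShift T ℤ]
  [∀ (n : ℤ), (shiftFunctor T n).Additive] [Pretriangulated T] in
theorem left_zero (B : ObjectProperty T) (Z : T) (hZ : IsZero Z) (hBZ : B Z) (X : T)
    (h : ∀ Y, B Y → ∀ f : X ⟶ Y, f = 0) : B.ι.leftAdjointObjIsDefined X := by
  rw [Functor.leftAdjointObjIsDefined_iff]
  exact Functor.CorepresentableBy.isCorepresentable (X := (⟨Z, hBZ⟩ : B.FullSubcategory))
    { homEquiv := fun {Y} =>
        { toFun := fun _ => (0 : X ⟶ Y.obj)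
          invFun := fun _ => ObjectProperty.homMk (0 : Z ⟶ Y.obj)
          left_inv := fun f => ObjectProperty.hom_ext _ (hZ.eq_of_src _ _)
          right_inv := fun f => (h Y.obj Y.property f).symm }
      homEquiv_comp := fun {Y Y'} f g => (h Y'.obj Y'.property _).symm }

theorem tri_of (P : ObjectProperty T) (Z : T) (hZ : IsZero Z) (hPZ : P Z)
    (h1 : ∀ X (n : ℤ), P X → P (X⟦n⟧))
    (h2 : ∀ Δ ∈ distTriang T, P Δ.obj₁ → P Δ.obj₃ → P Δ.obj₂) : P.IsTriangulated where
  exists_zero := ⟨Z, hZ, hPZ⟩
  isStableUnderShiftBy n := ⟨fun X hX => h1 X n hX⟩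
  ext₂' Δ hΔ a b := P.le_isoClosure _ (h2 Δ hΔ a b)

end

end SO1_

open SO1_ in
theorem so1_proof (hRPR : Ph.Stmt_RPR) (hLPJ : Stmt_LPJ) : Stmt_SO1 := by
  intro T _ _ _ _ _ _ B hB
  have t0 := hB.tri 0
  have t1 := hB.tri 1
  obtain ⟨Z0, hZ0, hB0⟩ := (B 0).exists_prop_of_containsZero
  obtain ⟨Z1, hZ1, hB1⟩ := (B 1).exists_prop_of_containsZero
  constructor
  · obtain ⟨a1, a2, a3⟩ := hRPR (B 1).FullSubcategory T (B 1).ι
    refine Functor.isLeftAdjoint_of_rightAdjointObjIsDefined_eq_top ?_
    have h := hB.gen (B 1).ι.rightAdjointObjIsDefined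
      (tri_of _ Z1 hZ1 (right_self (B 1) Z1 hB1) a2 a3) a1 (by
        intro j X hX
        fin_cases j
        · exact right_zero (B 1) Z1 hZ1 hB1 X
            (fun Y hY f => hB.orth 0 1 (by decide) Y X hY hX f)
        · exact right_self (B 1) X hX)
    ext X
    simp [h X]
  · obtain ⟨a1, a2, a3⟩ := hLPJ (B 0).FullSubcategory T (B 0).ι
    refine Functor.isRightAdjoint_of_leftAdjointObjIsDefined_eq_top ?_
    have h := hB.gen (B 0).ι.leftAdjointObjIsDefined
      (tri_of _ Z0 hZ0 (left_self (B 0) Z0 hB0) a2 a3) a1 (by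
        intro j X hX
        fin_cases j
        · exact left_self (B 0) X hX
        · exact left_zero (B 0) Z0 hZ0 hB0 X
            (fun Y hY f => hB.orth 0 1 (by decide) X Y hX hY f))
    ext X
    simp [h X]

end Pool.CRD
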