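import Pool.Agent.CRD.Sa.TSA

open CategoryTheory Limits Opposite Pretriangulated

namespace Pool.CRD

noncomputable section

namespace SO2_

universe v v' u u'

variable {T : Type u} [Category.{v} T] {T' : Type u'} [Category.{v'} T']

/-- the comparison of inclusions, for the second component -/
def resIso' (E : T ⥤ T') [E.IsEquivalence] (B : ObjectProperty T')
    [B.IsClosedUnderIsomorphisms] :
    B.ι ≅ ((TSO_.res E B).inv ⋙ (B.inverseImage E).ι) ⋙ E := by
  refine (Functor.leftUnitor _).symm ≪≫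
    Functor.isoWhiskerRight (TSO_.res E B).asEquivalence.counitIso.symm B.ι ≪≫ ?_
  exact Functor.isoWhiskerLeft (TSO_.res E B).inv (Iso.refl ((B.inverseImage E).ι ⋙ E))

end SO2_

theorem so2_proof (hSO1 : Stmt_SO1) : Stmt_SO2 := by
  intro T _ _ _ _ _ _ B hB E _ hE
  obtain ⟨h1, h0⟩ := hSO1 T B hB
  have hiso := hB.iso 1
  have e : B 0 = (B 1).inverseImage E := by
    ext X
    exact hE X
  have h0' : ((B 1).inverseImage E).ι.IsRightAdjoint := by
    rw [← e]
    exact h0
  have a0 : (B 0).ι.IsLeftAdjoint := by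
    rw [e]
    exact Functor.isLeftAdjoint_of_iso (TSA_.resIso E (B 1)).symm
  have a1 : (B 1).ι.IsRightAdjoint :=
    Functor.isRightAdjoint_of_iso (SO2_.resIso' E (B 1)).symm
  intro j
  fin_cases j
  · exact ⟨a0, h0⟩
  · exact ⟨h1, a1⟩

end

end Pool.CRD
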