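import Pool.Agent.CRD.Sa.Stmts
import Pool.Agent.CRD.G.SPT
import Pool.Agent.CRD.G.TWC
import Pool.Agent.CRD.Phi.TWM

/-!
# CRD: the semiorthogonal decomposition in the split case, with admissible components
-/

set_option autoImplicit false

open CategoryTheory Opposite Limits TensorProduct MonoidalCategory Pretriangulated

namespace Pool.CRD

namespace SPS_

section
variable {K : Type} [Field K] {C C' : Type} [SmallCategory C] [SmallCategory C']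
  {R : PAlg K C} {R' : PAlg K C'}

/-- restriction to coherent modules of a composition with an isomorphism -/
noncomputable def cohIso {F : PMod R ⥤ PMod R'} {G : PMod R' ⥤ PMod R'}
    {F' : PMod R ⥤ PMod R'} (hF : ∀ M, IsCoh R M → IsCoh R' (F.obj M))
    (hG : ∀ M, IsCoh R' M → IsCoh R' (G.obj M)) (hF' : ∀ M, IsCoh R M → IsCoh R' (F'.obj M))
    (e : F ⋙ G ≅ F') : cohF F hF ⋙ cohF G hG ≅ cohF F' hF' :=
  Functor.fullyFaithfulCancelRight (IsCoh R').ι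
    (show (cohF F hF ⋙ cohF G hG) ⋙ (IsCoh R').ι ≅ cohF F' hF' ⋙ (IsCoh R').ι from
      Functor.isoWhiskerLeft (IsCoh R).ι e)

/-- the same for the identity -/
noncomputable def cohIsoId {F G : PMod R ⥤ PMod R} (hF : ∀ M, IsCoh R M → IsCoh R (F.obj M))
    (hG : ∀ M, IsCoh R M → IsCoh R (G.obj M)) (e : F ⋙ G ≅ 𝟭 _) :
    cohF F hF ⋙ cohF G hG ≅ 𝟭 (Coh R) :=
  Functor.fullyFaithfulCancelRight (IsCoh R).ι
    (show (cohF F hF ⋙ cohF G hG) ⋙ (IsCoh R).ι ≅ 𝟭 (Coh R) ⋙ (IsCoh R).ι from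
      Functor.isoWhiskerLeft (IsCoh R).ι e)

variable [R.Good] [R'.Good]

noncomputable def bIso {F : PMod R ⥤ PMod R'} {G : PMod R' ⥤ PMod R'}
    {F' : PMod R ⥤ PMod R'} [ExF F] [ExF G] [ExF F']
    (hF : ∀ M, IsCoh R M → IsCoh R' (F.obj M))
    (hG : ∀ M, IsCoh R' M → IsCoh R' (G.obj M)) (hF' : ∀ M, IsCoh R M → IsCoh R' (F'.obj M))
    (e : F ⋙ G ≅ F') : mB (cohF F hF) ⋙ mB (cohF G hG) ≅ mB (cohF F' hF') :=
  Ph.TWM_.mBcomp (cohF F hF) (cohF G hG) ≪≫ Ph.TWM_.mBIso (cohIso hF hG hF' e)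

noncomputable def bIsoId {F G : PMod R ⥤ PMod R} [ExF F] [ExF G]
    (hF : ∀ M, IsCoh R M → IsCoh R (F.obj M))
    (hG : ∀ M, IsCoh R M → IsCoh R (G.obj M)) (e : F ⋙ G ≅ 𝟭 _) :
    mB (cohF F hF) ⋙ mB (cohF G hG) ≅ 𝟭 (Db R) :=
  Ph.TWM_.mBcomp (cohF F hF) (cohF G hG) ≪≫ Ph.TWM_.mBIso (cohIsoId hF hG e) ≪≫ Ph.TWM_.mBid

end

/-- essential images and autoequivalences -/
lemma essImage_iff {T T' : Type 1} [Category.{1} T] [Category.{1} T'] (F G : T' ⥤ T) (E : T ⥤ T)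
    [E.IsEquivalence] (e : F ⋙ E ≅ G) (X : T) : F.essImage X ↔ G.essImage (E.obj X) := by
  constructor
  · rintro ⟨y, ⟨i⟩⟩
    exact ⟨y, ⟨(e.app y).symm ≪≫ E.mapIso i⟩⟩
  · rintro ⟨y, ⟨i⟩⟩
    exact ⟨y, ⟨E.preimageIso (e.app y ≪≫ i)⟩⟩

end SPS_

open SPS_ in
/-- SPS: the semiorthogonal decomposition in the split case, with admissible components -/
theorem sps_proof (hLBI : G.Stmt_LBI) (hTWB : G.Stmt_TWB) (hTEX : G.Stmt_TEX) (hTWC : G.Stmt_TWC)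
    (hPCO : G.Stmt_PCO) (hEXB : G.Stmt_EXB) (hLRA : G.Stmt_LRA) (hLRB : G.Stmt_LRB)
    (hLRD : G.Stmt_LRD) (hHPL : G.Stmt_HPL) (hDFF : G.Stmt_DFF) (hDOR : G.Stmt_DOR)
    (hSBF : G.Stmt_SBF) (hDVB : G.Stmt_DVB) (hIMG : G.Stmt_IMG) (hGNA : G.Stmt_GNA)
    (hEFS : G.Stmt_EFS) (hEFX : G.Stmt_EFX) (hSO2 : Stmt_SO2) : Stmt_SPS := by
  intro K _ _ _ c₁ c₂ S X _ _ hS
  obtain ⟨a, b, hab⟩ := hS
  obtain ⟨I, L', hI, hcL, hcL', e1, e2⟩ := hLBI K c₁ c₂ S X a b hab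
  haveI i1 : ExF (G.bcX X) := (hEXB K c₁ c₂ S X).1
  haveI i2 : ExF X.pbS := (hEXB K c₁ c₂ S X).2
  haveI i3 : ExF (tensorRight (G.lbX I)) := hTEX K Ch3 X.R (G.lbX I) L' e1
  haveI i3' : ExF (tensorRight L') := hTEX K Ch3 X.R L' (G.lbX I) e2
  haveI i4 : (tensorRight (G.lbX I)).Linear K := G.SPT_.lin_tensor hTWC (G.lbX I) L' e1
  have h0 : ∀ M, IsCoh S.R M → IsCoh X.R (X.pbS.obj M) := hPCO K c₁ c₂ S X
  have hL : ∀ M, IsCoh X.R M → IsCoh X.R ((tensorRight (G.lbX I)).obj M) :=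
    fun M hM => hTWB K Ch3 X.R _ _ hM hcL
  have hL' : ∀ M, IsCoh X.R M → IsCoh X.R ((tensorRight L').obj M) :=
    fun M hM => hTWB K Ch3 X.R _ _ hM hcL'
  have h1 : ∀ M, IsCoh S.R M → IsCoh X.R ((X.pbS ⋙ tensorRight (G.lbX I)).obj M) :=
    fun M hM => hL _ (h0 M hM)
  have eS := hEFS K c₁ c₂ S
  have eX := hEFX K c₁ c₂ S X
  obtain ⟨f0, g0⟩ := hDFF K Ch2 Ch3 S.R X.R X.pbS h0 eS eX
    (fun M N _ => hLRB K c₁ c₂ S X M N)
  obtain ⟨f1, g1⟩ := hDFF K Ch2 Ch3 S.R X.R (X.pbS ⋙ tensorRight (G.lbX I)) h1 eS eX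
    (fun M N _ => hLRD K c₁ c₂ S X (G.lbX I) L' e1 M N)
  obtain ⟨c0, t0, a0⟩ := hIMG K (Db X.R) (Db S.R) (mB (cohF X.pbS h0)) f0 g0
  obtain ⟨c1, t1, a1⟩ := hIMG K (Db X.R) (Db S.R)
    (mB (cohF (X.pbS ⋙ tensorRight (G.lbX I)) h1)) f1 g1
  have hor : ∀ (x y : Db S.R) (f : (mB (cohF X.pbS h0)).obj x ⟶
      (mB (cohF (X.pbS ⋙ tensorRight (G.lbX I)) h1)).obj y), f = 0 := by
    refine hDOR K Ch2 Ch3 S.R X.R X.pbS (X.pbS ⋙ tensorRight (G.lbX I)) h0 h1 eX ?_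
    intro M N _ f
    exact hLRA K c₁ c₂ S X _ (fun s => hHPL K c₁ c₂ S X a b I hI N s) M f
  let B : Fin 2 → ObjectProperty (Db X.R) :=
    ![(mB (cohF (X.pbS ⋙ tensorRight (G.lbX I)) h1)).essImage, (mB (cohF X.pbS h0)).essImage]
  have hB : SOD B :=
    { tri := by
        intro j
        fin_cases j
        · exact t1
        · exact t0
      iso := by
        intro j
        fin_cases j
        · exact c1
        · exact c0
      orth := by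
        intro i j hij x y hx hy f
        have hi : i = 0 := by omega
        have hj : j = 1 := by omega
        subst hi
        subst hj
        exact G.SPT_.comp_of_img _ _ hor x y hx hy f
      gen := by
        intro P hP hPi hle y
        refine hDVB K Ch3 X.R P hP hPi (fun M => ?_) y
        refine hGNA K c₁ c₂ S X a b I L' hI hcL hcL' e1 P hP hPi ?_ ?_ M.obj M.property
        · intro N hN h
          obtain ⟨e⟩ := hSBF K Ch2 Ch3 S.R X.R X.pbS h0 ⟨N, hN⟩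
          exact hle 1 _ ⟨_, ⟨e⟩⟩
        · intro N hN h
          obtain ⟨e⟩ := hSBF K Ch2 Ch3 S.R X.R (X.pbS ⋙ tensorRight (G.lbX I)) h1 ⟨N, hN⟩
          exact hle 0 _ ⟨_, ⟨e⟩⟩ }
  refine ⟨B, hB, fun j => ?_, ?_⟩
  · fin_cases j
    · exact a1
    · exact a0
  · obtain ⟨e1⟩ := e1
    obtain ⟨e2⟩ := e2
    have n1 := G.TWC_.nt (G.lbX I) L' e1
    have n2 := G.TWC_.nt L' (G.lbX I) e2
    let E : Db X.R ⥤ Db X.R := mB (cohF (tensorRight L') hL')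
    have hE : E.IsEquivalence :=
      (CategoryTheory.Equivalence.mk E (mB (cohF (tensorRight (G.lbX I)) hL))
        (bIsoId hL' hL n2).symm (bIsoId hL hL' n1)).isEquivalence_functor
    refine hSO2 (Db X.R) B hB E ?_
    intro Y
    refine essImage_iff _ _ E (bIso h1 hL' h0 ?_) Y
    exact Functor.associator _ _ _ ≪≫ Functor.isoWhiskerLeft X.pbS n1 ≪≫ Functor.rightUnitor _

end Pool.CRD
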