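import Pool.Agent.CRD.Sa.Stmts
import Pool.Agent.CRD.Br.TSO

open CategoryTheory Limits Opposite Pretriangulated

namespace Pool.CRD

noncomputable section

namespace TSA_

universe v v' u u'

variable {T : Type u} [Category.{v} T] {T' : Type u'} [Category.{v'} T']

/-- the comparison of inclusions -/
def resIso (E : T ⥤ T') [E.IsEquivalence] (B : ObjectProperty T') :
    (B.inverseImage E).ι ≅ (TSO_.res E B ⋙ B.ι) ⋙ E.inv := by
  refine (Functor.rightUnitor _).symm ≪≫
    Functor.isoWhiskerLeft _ E.asEquivalence.unitIso ≪≫ ?_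
  exact Functor.isoWhiskerRight (Iso.refl ((B.inverseImage E).ι ⋙ E)) E.inv

lemma adm_inverseImage (E : T ⥤ T') [E.IsEquivalence] (B : ObjectProperty T')
    [B.IsClosedUnderIsomorphisms] (h : Adm B) : Adm (B.inverseImage E) := by
  obtain ⟨h1, h2⟩ := h
  constructor
  · exact Functor.isLeftAdjoint_of_iso (resIso E B).symm
  · exact Functor.isRightAdjoint_of_iso (resIso E B).symm

end TSA_

open TSO_ in
theorem tsa_proof : Stmt_TSA := by
  intro K _ T _ _ _ _ _ _ _ T' _ _ _ _ _ _ _ T'' _ _ _ _ _ _ _ e l B hB hA hAdm
  let _ := e.cs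
  have := e.tri
  have := e.eq
  have htri := hB.tri
  have hiso := hB.iso
  have hB' : SOD (fun j => (B j).inverseImage e.E) :=
    { tri := fun j => inferInstance
      iso := fun j => inferInstance
      orth := fun i j hij X Y hX hY f =>
        e.E.map_injective (by rw [hB.orth i j hij _ _ hX hY (e.E.map f), e.E.map_zero])
      gen := by
        intro P hP hPi hle X
        obtain ⟨X', hX', ⟨i⟩⟩ := hB.gen (P.map e.E) inferInstance inferInstance (fun j Y hY => by
          let i := e.E.objObjPreimageIso Y
          have h : (B j).inverseImage e.E (e.E.objPreimage Y) := (B j).prop_of_iso i.symm hY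
          exact ⟨e.E.objPreimage Y, hle j _ h, ⟨i⟩⟩) (e.E.obj X)
        exact P.prop_of_iso (e.E.preimageIso i) hX' }
  refine ⟨fun j => (B j).inverseImage e.E, hB', fun j => ?_,
    fun j => TSA_.adm_inverseImage e.E (B j) (hAdm j)⟩
  obtain ⟨F, cs, tri, add, full, faith, lin, ra, la⟩ := hA j
  refine ⟨res e.E (B j) ⋙ F, inferInstance, inferInstance, inferInstance, inferInstance,
    inferInstance, fun X Y f a => ?_, inferInstance, inferInstance⟩
  have h : (res e.E (B j)).map (a • f) = a • (res e.E (B j)).map f := by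
    apply (B j).ι.map_injective
    exact e.lin _ _ f.hom a
  rw [Functor.comp_map, Functor.comp_map, h, lin]

end

end Pool.CRD
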