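import Pool.Agent.CRD.Sa.Final
import Pool.Agent.CRD.Br.Asm
import Pool.Agent.CRD.Phi.Stmts

/-!
# CRD: admissibility of the components, statements and assembly
-/

open CategoryTheory AlgebraicGeometry Limits Opposite Pretriangulated

namespace Pool.CRD

/-- LPJ: the objects for which the left adjoint is defined are closed under shifts and
extensions -/
def Stmt_LPJ : Prop :=
  ∀ (T : Type 1) [Category.{1} T] [HasZeroObject T] [HasShift T ℤ] [Preadditive T]
    [∀ (n : ℤ), (shiftFunctor T n).Additive] [Pretriangulated T]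
    (T' : Type 1) [Category.{1} T'] [HasZeroObject T'] [HasShift T' ℤ] [Preadditive T']
    [∀ (n : ℤ), (shiftFunctor T' n).Additive] [Pretriangulated T']
    (F : T ⥤ T') [F.CommShift ℤ] [F.IsTriangulated],
    F.leftAdjointObjIsDefined.IsClosedUnderIsomorphisms ∧
    (∀ X (n : ℤ), F.leftAdjointObjIsDefined X → F.leftAdjointObjIsDefined (X⟦n⟧)) ∧
    (∀ Δ ∈ distTriang T', F.leftAdjointObjIsDefined Δ.obj₁ →
      F.leftAdjointObjIsDefined Δ.obj₃ → F.leftAdjointObjIsDefined Δ.obj₂)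

/-- SO1: in a semiorthogonal decomposition with two components the inclusion of the second one has a
right adjoint, the inclusion of the first one has a left adjoint -/
def Stmt_SO1 : Prop :=
  ∀ (T : Type 1) [Category.{1} T] [HasZeroObject T] [HasShift T ℤ] [Preadditive T]
    [∀ (n : ℤ), (shiftFunctor T n).Additive] [Pretriangulated T]
    (B : Fin 2 → ObjectProperty T), SOD B → (B 1).ι.IsLeftAdjoint ∧ (B 0).ι.IsRightAdjoint

/-- SO2: if in addition an autoequivalence maps the first component onto the second one, both are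
admissible -/
def Stmt_SO2 : Prop :=
  ∀ (T : Type 1) [Category.{1} T] [HasZeroObject T] [HasShift T ℤ] [Preadditive T]
    [∀ (n : ℤ), (shiftFunctor T n).Additive] [Pretriangulated T]
    (B : Fin 2 → ObjectProperty T), SOD B → ∀ (E : T ⥤ T) [E.IsEquivalence],
    (∀ X, B 0 X ↔ B 1 (E.obj X)) → ∀ j, Adm (B j)

/-- SPS: the semiorthogonal decomposition in the split case, with admissible components -/
def Stmt_SPS : Prop :=
  ∀ (K : Type) [Field K] [IsAlgClosed K] [CharZero K] (c₁ c₂ : CurveData K) (S : SurfData c₁ c₂)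
    (X : ConicData S) [X.R.Good] [S.R.Good], S.Split →
    ∃ (B : Fin 2 → ObjectProperty (Db X.R)) (hB : SOD B),
      (∀ j, haveI := hB.tri j; AdmEmb K (Db S.R) (B j)) ∧ ∀ j, Adm (B j)

/-- TSA: transport of a semiorthogonal decomposition with admissible components -/
def Stmt_TSA : Prop :=
  ∀ (K : Type) [Field K] (T : Type 1) [Category.{1} T] [HasZeroObject T] [HasShift T ℤ]
    [Preadditive T] [∀ (n : ℤ), (shiftFunctor T n).Additive] [Pretriangulated T] [Linear K T]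
    (T' : Type 1) [Category.{1} T'] [HasZeroObject T'] [HasShift T' ℤ]
    [Preadditive T'] [∀ (n : ℤ), (shiftFunctor T' n).Additive] [Pretriangulated T']
    [Linear K T']
    (T'' : Type 1) [Category.{1} T''] [HasZeroObject T''] [HasShift T'' ℤ]
    [Preadditive T''] [∀ (n : ℤ), (shiftFunctor T'' n).Additive] [Pretriangulated T'']
    [Linear K T''],
    TEquiv K T T' → ∀ (l : ℕ) (B : Fin l → ObjectProperty T') (hB : SOD B),
    (∀ j, haveI := hB.tri j; AdmEmb K T'' (B j)) → (∀ j, Adm (B j)) →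
    ∃ (B' : Fin l → ObjectProperty T) (hB' : SOD B'),
      (∀ j, haveI := hB'.tri j; AdmEmb K T'' (B' j)) ∧ ∀ j, Adm (B' j)

section
variable {K : Type} [Field K]

lemma CatRepW.weak {adm : Prop} {X : KSch K} {n : ℕ} (H : CatRepW adm X n) : CatRep X n := by
  obtain ⟨l, B, hB, _, H⟩ := H
  exact ⟨l, B, hB, H⟩

lemma CatRepW.mono {adm : Prop} {X : KSch K} {m n : ℕ} (h : m ≤ n) (H : CatRepW adm X m) :
    CatRepW adm X n := by
  obtain ⟨l, B, hB, ha, H⟩ := H
  refine ⟨l, B, hB, ha, fun j => ?_⟩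
  obtain ⟨hj, Y, hs, hp, hi, hd, ha⟩ := H j
  exact ⟨hj, Y, hs, hp, hi, hd.trans (by exact_mod_cast h), ha⟩

lemma crdW_le_iff (adm : Prop) (X : KSch K) (n : ℕ) : crdW adm X ≤ n ↔ CatRepW adm X n := by
  constructor
  · intro h
    by_contra hn
    have h1 : ((n + 1 : ℕ) : ℕ∞) ≤ crdW adm X := by
      refine le_iInf₂ fun m hm => ?_
      rw [Nat.cast_le]
      by_contra hlt
      exact hn (hm.mono (by omega))
    have h2 := h1.trans h
    rw [Nat.cast_le] at h2
    omega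
  · intro h
    exact iInf₂_le n h

end

theorem spec_okA (hSP : Stmt_SPS) (hTSA : Stmt_TSA) (hG : Stmt_GOO) (hC : Stmt_COH)
    (hT : TransAll) {K : Type} [Field K] [IsAlgClosed K] [CharZero K] (X : KSch K)
    (hX : SpecFib X) (adm : Prop) : CatRepW adm X 2 := by
  obtain ⟨c₁, c₂, S, D, ⟨c⟩, hS, Z, hs, hp, hi, hd, ⟨cZ⟩⟩ := hX
  haveI : D.R.Good := hG K X Ch3 D.R c
  haveI : S.R.Good := hG K Z Ch2 S.R cZ
  obtain ⟨E⟩ := tequiv_of hG hC hT c
  obtain ⟨EZ⟩ := tequiv_of hG hC hT cZ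
  obtain ⟨EZ'⟩ := hT.tsy K _ _ EZ
  obtain ⟨B, hB, hAB, hadm⟩ := hSP K c₁ c₂ S D hS
  obtain ⟨B', hB', hAB', hadm'⟩ := hTSA K X.Db (Db D.R) (Db S.R) E 2 B hB hAB hadm
  refine ⟨2, B', hB', fun _ => hadm', fun j => ⟨hB'.tri j, Z, hs, hp, hi, by exact_mod_cast hd, ?_⟩⟩
  haveI := hB'.tri j
  exact (hT.aeq K X.Db Z.Db (B' j)).1 (hT.tae K X.Db (Db S.R) Z.Db EZ' (B' j) (hAB' j))

/-- the final assembly -/
theorem crd2_proof (hT1 : Stmt_T1A) (hT2 : Stmt_T2A) (hIY : Stmt_IYT) (hIX : Stmt_IXT)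
    (hSP : Stmt_SPS) (hTSA : Stmt_TSA) (hG : Stmt_GOO) (hC : Stmt_COH) (hT : TransAll)
    (hFa : Stmt_F2a) (hFb : Stmt_F2b) : Stmt_CRD2 := by
  obtain ⟨R, _, E, π, hs, hp, hi, h0, s, η, hsη, hg, hsp⟩ := hFb
  refine ⟨R, _, E, π, hs, hp, hi, fun adm ho => ?_⟩
  haveI := h0 s
  haveI := h0 η
  have h1 : s ∈ {s : Spec (CommRingCat.of R) | crdW adm (geomFibre π s) ≤ 2} :=
    (crdW_le_iff adm _ 2).2 (spec_okA hSP hTSA hG hC hT _ hsp adm)
  have h2 : η ∈ {s : Spec (CommRingCat.of R) | crdW adm (geomFibre π s) ≤ 2} :=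
    hsη.mem_open ho h1
  exact gen_not hT1 hT2 hIY hIX hG hC hT hFa _ hg ((crdW_le_iff adm _ 2).1 h2).weak

end Pool.CRD
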